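import Pool.Agent.Helper81.UR2.Goals

/-!
# PROJECT UR2 (MP_c578c8_lc), packet SCH: counting of the reads
-/

set_option autoImplicit false

namespace Pool.Agent.Helper88.UR2

open Finset
open Pool.Agent.Helper81.UR2 (sch rds GoalSCH)

/-- The bounds for a state. -/
def Inv (D T : ℕ) (V κ : ℕ → ℕ) (q : ℕ × ℕ × ℕ × ℕ) : Prop :=
  q.1 ≤ T ∧ q.2.2.1 ≤ D ∧ (∃ t' ≤ T, q.2.1 = V t') ∧ (q.2.2.2 = 0 ∨ ∃ t' ≤ T, q.2.2.2 = κ t' + 1)

/-- The number of the reads in the first `R` steps from `q` on. -/
def rc (D : ℕ) (V E κ : ℕ → ℕ) (q : ℕ × ℕ × ℕ × ℕ) (R : ℕ) : ℕ :=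
  ((range R).filter fun j => D ≤ ((sch D V E κ)^[j] q).2.2.1 ∧
    ((sch D V E κ)^[j] q).2.1 = V ((sch D V E κ)^[j] q).1).card

theorem rc_succ (D : ℕ) (V E κ : ℕ → ℕ) (q : ℕ × ℕ × ℕ × ℕ) (R : ℕ) :
    rc D V E κ q (R + 1) = rc D V E κ (sch D V E κ q) R +
      if D ≤ q.2.2.1 ∧ q.2.1 = V q.1 then 1 else 0 := by
  unfold rc
  rw [card_filter, card_filter, sum_range_succ']
  rfl

/-- The number of the changes from the time `t` on. -/
def ch (T : ℕ) (B V : ℕ → ℕ) (t : ℕ) : ℕ :=
  ((range T).filter fun s => t ≤ s ∧ (B (s + 1) ≠ B s ∨ V (s + 1) ≠ V s)).card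

theorem ch_lt {T : ℕ} {B V : ℕ → ℕ} {t e : ℕ} (h1 : t < e) (h2 : e < T)
    (h3 : ∀ t', t ≤ t' → t' < e → B t' = B t ∧ V t' = V t) (h4 : B e ≠ B t ∨ V e ≠ V t) :
    ch T B V e + 1 ≤ ch T B V t := by
  unfold ch
  have hn : e - 1 ∉ (range T).filter fun s => e ≤ s ∧ (B (s + 1) ≠ B s ∨ V (s + 1) ≠ V s) := by
    intro h
    have := (mem_filter.1 h).2.1
    omega
  rw [← card_insert_of_notMem hn]
  refine card_le_card fun s hs => ?_
  rcases mem_insert.1 hs with rfl | hs
  · refine mem_filter.2 ⟨mem_range.2 (by omega), by omega, ?_⟩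
    obtain ⟨h5, h6⟩ := h3 (e - 1) (by omega) (by omega)
    have h7 : e - 1 + 1 = e := by omega
    rw [h7, h5, h6]
    exact h4
  · obtain ⟨h5, h6, h7⟩ := mem_filter.1 hs
    exact mem_filter.2 ⟨h5, by omega, h7⟩

section

variable {D T : ℕ} {B V E κ : ℕ → ℕ}

theorem main (hE : ∀ t < T, t < E t ∧ E t ≤ T ∧
    (∀ t', t ≤ t' → t' < E t → B t' = B t ∧ V t' = V t) ∧
    (E t < T → B (E t) ≠ B t ∨ V (E t) ≠ V t)) : ∀ (m : ℕ) (q : ℕ × ℕ × ℕ × ℕ),
    (T - q.1) * (2 * D + 3) + (if q.2.1 = V q.1 then 0 else D + 1) + (D - q.2.2.1) ≤ m →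
    Inv D T V κ q → ∃ R, ((sch D V E κ)^[R] q).1 = T ∧
      (∀ j ≤ R, Inv D T V κ ((sch D V E κ)^[j] q)) ∧
      rc D V E κ q R ≤ ch T B V q.1 + (if q.1 = T then 0 else 1) := by
  intro m
  induction m with
  | zero =>
    rintro ⟨t, ω, i, e⟩ hm hq
    simp only at hm
    have hq1 : t ≤ T := hq.1
    by_cases ht : t = T
    · subst ht
      refine ⟨0, rfl, fun j hj => ?_, ?_⟩
      · rw [Nat.le_zero.1 hj]
        exact hq
      · simp [rc]
    · exfalso
      have h1 : 1 ≤ T - t := by omega
      have h2 : 2 * D + 3 ≤ (T - t) * (2 * D + 3) := Nat.le_mul_of_pos_left _ h1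
      omega
  | succ m ih =>
    rintro ⟨t, ω, i, e⟩ hm hq
    have hq1 : t ≤ T := hq.1
    have hq2 : i ≤ D := hq.2.1
    by_cases ht : t = T
    · subst ht
      refine ⟨0, rfl, fun j hj => ?_, ?_⟩
      · rw [Nat.le_zero.1 hj]
        exact hq
      · simp [rc]
    · have htT : t < T := by omega
      obtain ⟨e1, e2, e3, e4⟩ := hE t htT
      simp only at hm
      by_cases hi : i < D
      · -- a letter is loaded
        have hs : sch D V E κ (t, ω, i, e) = (t, ω, i + 1, 0) := by
          unfold sch
          rw [if_pos hi]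
        have hI : Inv D T V κ (t, ω, i + 1, 0) := ⟨hq1, hi, hq.2.2.1, Or.inl rfl⟩
        obtain ⟨R, g1, g2, g3⟩ := ih (t, ω, i + 1, 0) (by simp only; omega) hI
        refine ⟨R + 1, ?_, fun j hj => ?_, ?_⟩
        · rw [Function.iterate_succ_apply, hs]
          exact g1
        · rcases j with _ | j
          · exact hq
          · rw [Function.iterate_succ_apply, hs]
            exact g2 j (by omega)
        · rw [rc_succ, hs]
          have hn : ¬ (D ≤ i ∧ ω = V t) := fun h => absurd h.1 (by omega)
          simp only [if_neg hn]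
          exact g3
      · by_cases hw : ω = V t
        · -- a read
          have hs : sch D V E κ (t, ω, i, e) = (E t, ω, i, κ t + 1) := by
            unfold sch
            rw [if_neg hi, if_neg (by simpa using hw)]
          have hI : Inv D T V κ (E t, ω, i, κ t + 1) :=
            ⟨e2, hq2, hq.2.2.1, Or.inr ⟨t, hq1, rfl⟩⟩
          have hm' : (T - E t) * (2 * D + 3) + (if ω = V (E t) then 0 else D + 1) + (D - i) ≤
              m := by
            have h1 : (T - E t) + 1 ≤ T - t := by omega
            have h2 : ((T - E t) + 1) * (2 * D + 3) ≤ (T - t) * (2 * D + 3) :=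
              Nat.mul_le_mul_right _ h1
            have h3 : ((T - E t) + 1) * (2 * D + 3) = (T - E t) * (2 * D + 3) + (2 * D + 3) := by
              ring
            split_ifs <;> omega
          obtain ⟨R, g1, g2, g3⟩ := ih (E t, ω, i, κ t + 1) hm' hI
          refine ⟨R + 1, ?_, fun j hj => ?_, ?_⟩
          · rw [Function.iterate_succ_apply, hs]
            exact g1
          · rcases j with _ | j
            · exact hq
            · rw [Function.iterate_succ_apply, hs]
              exact g2 j (by omega)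
          · rw [rc_succ, hs]
            have hy : D ≤ i ∧ ω = V t := ⟨by omega, hw⟩
            simp only [if_pos hy, if_neg ht]
            simp only at g3
            by_cases hET : E t = T
            · rw [if_pos hET] at g3
              have h5 : ch T B V (E t) = 0 := by
                unfold ch
                rw [card_eq_zero, filter_eq_empty_iff]
                intro s hs2 h6
                have := mem_range.1 hs2
                omega
              omega
            · rw [if_neg hET] at g3
              have hlt : E t < T := by omega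
              have h5 := ch_lt (T := T) (B := B) (V := V) e1 hlt e3 (e4 hlt)
              omega
        · -- the window changes
          have hs : sch D V E κ (t, ω, i, e) = (t, V t, 0, 0) := by
            unfold sch
            rw [if_neg hi, if_pos (by simpa using hw)]
          have hI : Inv D T V κ (t, V t, 0, 0) :=
            ⟨hq1, Nat.zero_le _, ⟨t, hq1, rfl⟩, Or.inl rfl⟩
          rw [if_neg hw] at hm
          obtain ⟨R, g1, g2, g3⟩ := ih (t, V t, 0, 0) (by simp only [if_true]; omega) hI
          refine ⟨R + 1, ?_, fun j hj => ?_, ?_⟩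
          · rw [Function.iterate_succ_apply, hs]
            exact g1
          · rcases j with _ | j
            · exact hq
            · rw [Function.iterate_succ_apply, hs]
              exact g2 j (by omega)
          · rw [rc_succ, hs]
            have hn : ¬ (D ≤ i ∧ ω = V t) := fun h => hw h.2
            simp only [if_neg hn]
            exact g3

end

theorem gSCH : GoalSCH := by
  intro D T B V E κ hE
  obtain ⟨R, h1, h2, h3⟩ := main (κ := κ) hE _ (0, V 0, 0, 0) le_rfl
    ⟨Nat.zero_le _, Nat.zero_le _, ⟨0, Nat.zero_le _, rfl⟩, Or.inl rfl⟩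
  refine ⟨R, h1, h2, ?_⟩
  have h4 : ch T B V 0 = ((range T).filter fun t => B (t + 1) ≠ B t ∨ V (t + 1) ≠ V t).card := by
    unfold ch
    congr 1
    ext s
    simp
  rw [← h4]
  refine le_trans h3 ?_
  simp only
  split_ifs <;> omega

end Pool.Agent.Helper88.UR2
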